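import Pool.Agent.Q269.DX.St

/-!
# Project DX (helper269), job OKD: the data of a family satisfy the conditions
-/

set_option autoImplicit false
set_option linter.all false

open scoped Classical
open Finset

namespace Pool.Agent.Q153.DX

open Pool.Agent.Q269.DX
open Pool.Agent.Q269.DX.Bs (ze)
open Pool.Agent.Q269.DX.JQ
open Pool.Agent.Y164.HG (Dat Symp om om_add_left om_add_right om_smul_left om_smul_right om_self om_comm om_zero_left
  om_zero_right om_sum_left om_sum_right eq_zero_of_om F2_add_self F2_sq F2_cases W_add_self)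

variable {W : Type} [AddCommGroup W] [Module (ZMod 2) W] [Symp W] {τ₀ τ : Type} [Fintype τ₀] [Fintype τ]

theorem two0 : (2 : ZMod 2) = 0 := rfl

theorem ks_zero (D : Dat W τ₀) : D.ks 0 = 0 := by
  have h := D.ks_add 0 0
  rw [add_zero] at h
  exact left_eq_add.1 h

theorem TJ_apply (D : Dat W τ₀) (j : τ₀ → τ) (φ : Option τ → ZMod 2) (x : W) :
    TJ D j φ x = φ none • D.ks x + ∑ s, φ (some (j s)) • (om x (D.t s) • D.t s) := rfl

theorem TJ_none (i : DecidableEq (Option τ)) (D : Dat W τ₀) (j : τ₀ → τ) (x : W) :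
    TJ D j (@Pi.single _ _ _ i none 1) x = D.ks x := by
  rw [TJ_apply, Pi.single_eq_same, one_smul, Finset.sum_eq_zero, add_zero]
  intro s _
  rw [Pi.single_eq_of_ne (by simp), zero_smul]

theorem TJ_some (i : DecidableEq (Option τ)) (D : Dat W τ₀) (j : τ₀ → τ) (x₀ : τ) (x : W) :
    TJ D j (@Pi.single _ _ _ i (some x₀) 1) x =
    ∑ s, if j s = x₀ then om x (D.t s) • D.t s else 0 := by
  rw [TJ_apply, Pi.single_eq_of_ne (by simp), zero_smul, zero_add]
  refine Finset.sum_congr rfl fun s _ => ?_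
  rw [Pi.single_apply]
  by_cases h : j s = x₀
  · rw [if_pos h, if_pos (by rw [h]), one_smul]
  · rw [if_neg h, if_neg (by simpa using h), zero_smul]

theorem sumj {M : Type} [AddCommMonoid M] (j : τ₀ → τ) (f : τ → τ₀ → M) :
    ∑ x, ∑ s, (if j s = x then f x s else 0) = ∑ s, f (j s) s := by
  rw [Finset.sum_comm]
  refine Finset.sum_congr rfl fun s _ => ?_
  rw [Finset.sum_ite_eq, if_pos (Finset.mem_univ _)]

theorem om_ite (p : Prop) (y v : W) : om y (if p then v else 0) = if p then om y v else 0 := by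
  by_cases h : p
  · rw [if_pos h, if_pos h]
  · rw [if_neg h, if_neg h, om_zero_right]

/-- the value of `δ` at the labels of the bad primes -/
theorem del_some {D : Dat W τ₀} {j : τ₀ → τ} (hj : Function.Injective j) {δ : Option τ → W} {a : τ₀ → ZMod 2}
    (h1 : ∀ x, x ∉ Set.range j → δ (some x) = 0) (h2 : ∀ s, δ (some (j s)) = a s • D.t s) (x : τ) :
    δ (some x) = ∑ s, if j s = x then a s • D.t s else 0 := by
  by_cases hx : x ∈ Set.range j
  · obtain ⟨s, rfl⟩ := hx
    rw [h2, Finset.sum_eq_single s]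
    · rw [if_pos rfl]
    · intro s' _ hs'
      rw [if_neg fun h => hs' (hj h)]
    · intro h
      exact absurd (Finset.mem_univ s) h
  · rw [h1 x hx, Finset.sum_eq_zero]
    intro s _
    rw [if_neg fun h => hx ⟨s, h⟩]

theorem hswap (f : τ₀ → τ₀ → ZMod 2) (hf : ∀ i j, f i j = f j i) (h0 : ∀ i, f i i = 0) :
    ∑ i, ∑ j, f i j = 0 := by
  rw [← sum_product']
  refine sum_involution (fun p _ => (p.2, p.1)) ?_ ?_ ?_ ?_
  · rintro ⟨i, j⟩ _
    show f i j + f j i = 0
    rw [hf i j, F2_add_self]
  · rintro ⟨i, j⟩ _ hne h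
    simp only [Prod.mk.injEq] at h
    apply hne
    show f i j = 0
    rw [h.1]
    exact h0 _
  · intro _ _
    exact mem_univ _
  · rintro ⟨i, j⟩ _
    rfl

/-- `∑ e a t` -/
noncomputable def EE (D : Dat W τ₀) (a : τ₀ → ZMod 2) : W := ∑ s, (D.e s * a s) • D.t s

theorem EE_add (D : Dat W τ₀) (a b : τ₀ → ZMod 2) : EE D (a + b) = EE D a + EE D b := by
  unfold EE
  rw [← Finset.sum_add_distrib]
  refine Finset.sum_congr rfl fun s _ => ?_
  rw [Pi.add_apply, mul_add, add_smul]

theorem G_sum (D : Dat W τ₀) (s : τ₀) : ∑ s', D.G s s' * om (D.t s) (D.t s') = D.e s * om (D.t s) D.uu := by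
  have h5 := D.h1 s (D.t s)
  rw [om_self, mul_zero, D.ks_self] at h5
  have h6 : ∑ s', D.G s s' * (om (D.t s) (D.t s') * om (D.t s') (D.t s)) =
      ∑ s', D.G s s' * om (D.t s) (D.t s') := by
    refine Finset.sum_congr rfl fun s' _ => ?_
    rw [om_comm (D.t s') (D.t s), F2_sq]
  rw [h6] at h5
  linear_combination h5 - (D.e s * om (D.t s) D.uu) * two0

theorem sing_aux (D : Dat W τ₀) (j : τ₀ → τ) (hj : Function.Injective j) (δ ψ : Option τ → W) (a : τ₀ → ZMod 2)
    (h : LJc D j (δ, ψ) a) : (DJ D j).q (δ, ψ) = 0 := by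
  obtain ⟨h1, h2, h3, h4⟩ := h
  simp only at h1 h2 h3 h4
  have hd := del_some hj h1 h2
  obtain ⟨dc, e0⟩ : ∃ dc : DecidableEq (Option τ), (DJ D j).q (δ, ψ) =
      ∑ t, om (ψ t) (δ t) + ∑ t, om (ψ t) (TJ D j (@Pi.single _ _ _ dc t 1) (ψ t)) :=
    ⟨fun a b => Classical.propDecidable (a = b), rfl⟩
  obtain ⟨c, hc⟩ : ∃ c : τ₀ → ZMod 2, ∀ s, c s = om (ψ (some (j s))) (D.t s) := ⟨_, fun _ => rfl⟩
  have e1 : ∑ x, om (ψ (some x)) (δ (some x)) = ∑ s, a s * c s := by
    have : ∀ x, om (ψ (some x)) (δ (some x)) = ∑ s, if j s = x then om (ψ (some x)) (a s • D.t s) else 0 := by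
      intro x
      rw [hd x, om_sum_right]
      exact Finset.sum_congr rfl fun s _ => om_ite _ _ _
    simp only [this]
    rw [sumj j fun x s => om (ψ (some x)) (a s • D.t s)]
    exact Finset.sum_congr rfl fun s _ => by rw [om_smul_right, hc]
  have e2 : ∑ x, om (ψ (some x)) (TJ D j (@Pi.single _ _ _ dc (some x) 1) (ψ (some x))) = ∑ s, c s := by
    have : ∀ x, om (ψ (some x)) (TJ D j (@Pi.single _ _ _ dc (some x) 1) (ψ (some x))) =
        ∑ s, if j s = x then om (ψ (some x)) (om (ψ (some x)) (D.t s) • D.t s) else 0 := by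
      intro x
      rw [TJ_some, om_sum_right]
      exact Finset.sum_congr rfl fun s _ => om_ite _ _ _
    simp only [this]
    rw [sumj j fun x s => om (ψ (some x)) (om (ψ (some x)) (D.t s) • D.t s)]
    exact Finset.sum_congr rfl fun s _ => by rw [om_smul_right, F2_sq, hc]
  rw [e0, Fintype.sum_option, Fintype.sum_option, e1, e2, TJ_none, h3]
  -- the sum of the `c`
  have h4' : ∀ s, c s = D.sp s * a s + ∑ s', D.G s s' * (a s' * om (D.t s') (D.t s)) +
      D.e s * om (δ none) (D.t s) := by
    intro s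
    have h5 := h4 s
    rw [← hc] at h5
    linear_combination (-1 : ZMod 2) * h5 + c s * two0
  have f1 : ∑ s, a s * c s + ∑ s, c s = ∑ s, (a s + 1) * c s := by
    rw [← Finset.sum_add_distrib]
    exact Finset.sum_congr rfl fun s _ => by ring
  have f2 : ∑ s, (a s + 1) * c s = ∑ s, ∑ s', a s * (D.G s s' * (a s' * om (D.t s') (D.t s))) +
      ∑ s, ∑ s', D.G s s' * (a s' * om (D.t s') (D.t s)) +
      (∑ s, (D.e s * a s) * om (δ none) (D.t s) + ∑ s, D.e s * om (δ none) (D.t s)) := by
    rw [← Finset.sum_add_distrib, ← Finset.sum_add_distrib, ← Finset.sum_add_distrib]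
    refine Finset.sum_congr rfl fun s _ => ?_
    rw [h4' s, ← Finset.mul_sum]
    have h6 := F2_sq (a s)
    have h7 := F2_add_self (a s)
    linear_combination D.sp s * h6 + D.sp s * h7
  have f3 : ∑ s, ∑ s', a s * (D.G s s' * (a s' * om (D.t s') (D.t s))) = 0 := by
    apply hswap
    · intro s s'
      rw [D.symm, om_comm (D.t s') (D.t s)]
      ring
    · intro s
      rw [om_self]
      ring
  have f4 : ∑ s, ∑ s', D.G s s' * (a s' * om (D.t s') (D.t s)) = om (EE D a) D.uu := by
    rw [Finset.sum_comm, EE, om_sum_left]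
    refine Finset.sum_congr rfl fun s _ => ?_
    rw [om_smul_left]
    have h8 := G_sum D s
    have h9 : ∑ s', D.G s' s * (a s * om (D.t s) (D.t s')) = a s * ∑ s', D.G s s' * om (D.t s) (D.t s') := by
      rw [Finset.mul_sum]
      exact Finset.sum_congr rfl fun s' _ => by rw [D.symm]; ring
    rw [h9, h8]
    ring
  have f5 : ∑ s, (D.e s * a s) * om (δ none) (D.t s) = om (δ none) (EE D a) := by
    rw [EE, om_sum_right]
    exact Finset.sum_congr rfl fun s _ => by rw [om_smul_right]
  have f6 : ∑ s, D.e s * om (δ none) (D.t s) = 0 := by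
    have h10 := D.h3
    have h11 : om (δ none) (∑ s, D.e s • D.t s) = 0 := by rw [h10, om_zero_right]
    rw [om_sum_right] at h11
    rw [← h11]
    exact Finset.sum_congr rfl fun s _ => by rw [om_smul_right]
  have f7 : om (δ none) (EE D a) = om (D.ks (EE D a)) (ψ none) + om (EE D a) D.uu := by
    rw [h3]
    show om (D.ks (ψ none + EE D a)) (EE D a) = _
    rw [D.ks_add, om_add_left, D.ks_comm (ψ none), D.ks_self]
  have f8 : om (ψ none) (D.ks (ψ none + ∑ s, (D.e s * a s) • D.t s)) + om (ψ none) (D.ks (ψ none)) =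
      om (D.ks (EE D a)) (ψ none) := by
    show om (ψ none) (D.ks (ψ none + EE D a)) + om (ψ none) (D.ks (ψ none)) = _
    rw [D.ks_add, om_add_right, om_comm (ψ none) (D.ks (EE D a))]
    linear_combination (om (ψ none) (D.ks (ψ none))) * two0
  have f9 : ∑ s, (a s + 1) * c s = om (D.ks (EE D a)) (ψ none) := by
    rw [f2, f3, f4, f5, f6, f7]
    linear_combination (om (EE D a) D.uu) * two0
  linear_combination f8 + f1 + f9 + (om (D.ks (EE D a)) (ψ none)) * two0

/-- the fourth condition -/
noncomputable def Ph (D : Dat W τ₀) (j : τ₀ → τ) : (τ₀ → ZMod 2) × (Option τ → W) →+ (τ₀ → ZMod 2) where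
  toFun z s := D.sp s * z.1 s + om (z.2 (some (j s))) (D.t s) +
    ∑ s', D.G s s' * (z.1 s' * om (D.t s') (D.t s)) + D.e s * om (D.ks (z.2 none + EE D z.1)) (D.t s)
  map_zero' := by
    funext s
    have h0 : EE D (0 : τ₀ → ZMod 2) = 0 := by
      unfold EE
      exact Finset.sum_eq_zero fun s _ => by rw [Pi.zero_apply, mul_zero, zero_smul]
    simp [h0, ks_zero, om_zero_left]
  map_add' z w := by
    funext s
    have h1 : z.2 none + w.2 none + (EE D z.1 + EE D w.1) = z.2 none + EE D z.1 + (w.2 none + EE D w.1) := by abel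
    simp only [Prod.fst_add, Prod.snd_add, Pi.add_apply, EE_add, om_add_left, h1, D.ks_add, mul_add, add_mul,
      sum_add_distrib]
    ring

theorem Ph_surj (D : Dat W τ₀) (j : τ₀ → τ) (hj : Function.Injective j) (ht : ∀ s, D.t s ≠ 0) :
    Function.Surjective (Ph D j) := by
  intro v
  have h1 : ∀ s, ∃ w : W, om w (D.t s) = v s := by
    intro s
    by_contra hcon
    push Not at hcon
    apply ht s
    refine eq_zero_of_om _ fun y => ?_
    rcases F2_cases (v s) with h0 | h0
    · exact absurd (by rw [om_zero_left, h0]) (hcon 0)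
    · have h2 := hcon y
      rw [h0] at h2
      rw [om_comm]
      exact (F2_cases _).resolve_right h2
  choose w hw using h1
  refine ⟨(0, fun o => o.elim 0 fun x => ∑ s, if j s = x then w s else 0), ?_⟩
  funext s
  have h0 : EE D (0 : τ₀ → ZMod 2) = 0 := by
    unfold EE
    exact Finset.sum_eq_zero fun s _ => by rw [Pi.zero_apply, mul_zero, zero_smul]
  have h3 : ∑ s', (if j s' = j s then w s' else 0) = w s := by
    rw [Finset.sum_eq_single s]
    · rw [if_pos rfl]
    · intro s' _ hs'
      rw [if_neg fun h => hs' (hj h)]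
    · intro h
      exact absurd (Finset.mem_univ s) h
  show D.sp s * 0 + om (∑ s', (if j s' = j s then w s' else 0)) (D.t s) +
    ∑ s', D.G s s' * (0 * om (D.t s') (D.t s)) + D.e s * om (D.ks (0 + EE D 0)) (D.t s) = v s
  rw [h3, hw, h0, add_zero, ks_zero, om_zero_left]
  simp

theorem card_ker [Finite W] (D : Dat W τ₀) (j : τ₀ → τ) (hj : Function.Injective j) (ht : ∀ s, D.t s ≠ 0) :
    Nat.card (Ph D j).ker = Nat.card W ^ Fintype.card (Option τ) := by
  have h1 := AddSubgroup.card_eq_card_quotient_mul_card_addSubgroup (Ph D j).ker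
  have h2 := Nat.card_congr (QuotientAddGroup.quotientKerEquivOfSurjective (Ph D j) (Ph_surj D j hj ht)).toEquiv
  rw [h2, Nat.card_prod] at h1
  have h3 : 0 < Nat.card (τ₀ → ZMod 2) := Nat.card_pos
  have h4 := (Nat.eq_of_mul_eq_mul_left h3 h1).symm
  rw [h4, Nat.card_fun, Nat.card_eq_fintype_card (α := Option τ)]

/-- the element of `LJ` -/
noncomputable def mkL (D : Dat W τ₀) (j : τ₀ → τ) (hj : Function.Injective j) (z : (Ph D j).ker) : LJ D j :=
  ⟨(fun o => o.elim (D.ks (z.1.2 none + EE D z.1.1)) fun x => ∑ s, if j s = x then z.1.1 s • D.t s else 0, z.1.2), by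
    refine ⟨z.1.1, ?_, ?_, rfl, ?_⟩
    · intro x hx
      exact Finset.sum_eq_zero fun s _ => if_neg fun h => hx ⟨s, h⟩
    · intro s
      show ∑ s', (if j s' = j s then z.1.1 s' • D.t s' else 0) = _
      rw [Finset.sum_eq_single s]
      · rw [if_pos rfl]
      · intro s' _ hs'
        rw [if_neg fun h => hs' (hj h)]
      · intro h
        exact absurd (Finset.mem_univ s) h
    · intro s
      have h := z.2
      rw [AddMonoidHom.mem_ker] at h
      exact congrFun h s⟩

theorem mkL_bij (D : Dat W τ₀) (j : τ₀ → τ) (hj : Function.Injective j) (ht : ∀ s, D.t s ≠ 0) :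
    Function.Bijective (mkL D j hj) := by
  constructor
  · intro z w h
    have h1 : (mkL D j hj z).1 = (mkL D j hj w).1 := congrArg Subtype.val h
    have h2 : z.1.2 = w.1.2 := by
      have h9 := congrArg Prod.snd h1
      exact h9
    have h3 : ∀ s, z.1.1 s • D.t s = w.1.1 s • D.t s := by
      intro s
      have h4 := congrFun (congrArg Prod.fst h1) (some (j s))
      have h5 : ∀ z : (Ph D j).ker, (mkL D j hj z).1.1 (some (j s)) = z.1.1 s • D.t s := by
        intro z
        show ∑ s', (if j s' = j s then z.1.1 s' • D.t s' else 0) = _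
        rw [Finset.sum_eq_single s]
        · rw [if_pos rfl]
        · intro s' _ hs'
          rw [if_neg fun h => hs' (hj h)]
        · intro h
          exact absurd (Finset.mem_univ s) h
      rw [← h5, ← h5]
      exact h4
    refine Subtype.ext (Prod.ext ?_ h2)
    funext s
    have h6 : (z.1.1 s - w.1.1 s) • D.t s = 0 := by rw [sub_smul, h3, sub_self]
    rcases smul_eq_zero.1 h6 with h7 | h7
    · exact sub_eq_zero.1 h7
    · exact absurd h7 (ht s)
  · rintro ⟨⟨δ, ψ⟩, a, h1, h2, h3, h4⟩
    simp only at h1 h2 h3 h4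
    refine ⟨⟨(a, ψ), ?_⟩, ?_⟩
    · rw [AddMonoidHom.mem_ker]
      funext s
      have h5 := h4 s
      rw [h3] at h5
      exact h5
    · refine Subtype.ext (Prod.ext ?_ rfl)
      funext o
      cases o with
      | none => exact h3.symm
      | some x => exact (del_some hj h1 h2 x).symm

theorem t_OKD : S_OKD := by
  intro W _ _ _ _ τ₀ τ _ _ D j hj ht ρ hsp hN
  refine { alt := ?_, adj := ?_, nd := ?_, card := ?_, sing := ?_, tor := ?_ }
  · intro x
    exact om_self x
  · intro φ x y
    show om (TJ D j φ x) y = om x (TJ D j φ y) + 0 * om x y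
    rw [TJ_apply, TJ_apply, zero_mul, add_zero, om_add_left, om_add_right, om_smul_left, om_smul_right,
      om_sum_left, om_sum_right, D.ks_comm x y, om_comm (D.ks y) x]
    congr 1
    refine Finset.sum_congr rfl fun s _ => ?_
    rw [om_smul_left, om_smul_left, om_smul_right, om_smul_right, om_comm y (D.t s)]
    ring
  · intro x h
    exact eq_zero_of_om x h
  · rw [← card_ker D j hj ht]
    exact (Nat.card_congr (Equiv.ofBijective _ (mkL_bij D j hj ht))).symm
  · rintro ⟨δ, ψ⟩ ⟨a, ha⟩
    exact sing_aux D j hj δ ψ a ha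
  · intro x
    refine ⟨fun s => om x (D.t s), ?_, ?_, ?_, ?_⟩
    · intro x₀ hx
      show TJ D j (@Pi.single _ _ _ (fun a b => Classical.propDecidable (a = b)) (some x₀) 1) x = 0
      rw [TJ_some]
      exact Finset.sum_eq_zero fun s _ => if_neg fun h => hx ⟨s, h⟩
    · intro s
      show TJ D j (@Pi.single _ _ _ (fun a b => Classical.propDecidable (a = b)) (some (j s)) 1) x = _
      rw [TJ_some, Finset.sum_eq_single s]
      · rw [if_pos rfl]
      · intro s' _ hs'
        rw [if_neg fun h => hs' (hj h)]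
      · intro h
        exact absurd (Finset.mem_univ s) h
    · show TJ D j (@Pi.single _ _ _ (fun a b => Classical.propDecidable (a = b)) none 1) x = D.ks (ρ none • x + ∑ s, (D.e s * om x (D.t s)) • D.t s)
      rw [TJ_none, D.h4 x, ← add_smul, hN, one_smul]
    · intro s
      show D.sp s * om x (D.t s) + om (ρ (some (j s)) • x) (D.t s) +
        ∑ s', D.G s s' * (om x (D.t s') * om (D.t s') (D.t s)) +
        D.e s * om (TJ D j (@Pi.single _ _ _ (fun a b => Classical.propDecidable (a = b)) none 1) x) (D.t s) = 0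
      rw [TJ_none, om_smul_left]
      have h1 := D.h1 s x
      have h2 := hsp s
      linear_combination h1 + (om x (D.t s)) * h2

end Pool.Agent.Q153.DX
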